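import Mathlib
import Pool.Agent.Helper8K9.AV.Lin

/-!
# The commutant of an operator with squarefree characteristic polynomial
-/

set_option autoImplicit false

namespace Pool.Agent.Helper8K9.WR

open Polynomial Module

variable {K : Type*} {V : Type*} [Field K] [CharZero K] [AddCommGroup V] [Module K V] [FiniteDimensional K V]

theorem charpoly_dvd_minpoly (F : Module.End K V) (hsq : Squarefree F.charpoly) :
    F.charpoly ∣ minpoly K F := by
  refine Pool.Agent.Helper8K9.AV.dvd_of_roots (L := AlgebraicClosure K) hsq fun x hx => ?_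
  set F' : Module.End (AlgebraicClosure K) (TensorProduct K (AlgebraicClosure K) V) :=
    LinearMap.baseChange (AlgebraicClosure K) F with hF'
  have h1 : F'.charpoly.IsRoot x := by
    rw [hF', LinearMap.charpoly_baseChange, IsRoot.def, eval_map_algebraMap]
    exact hx
  rw [← Module.End.hasEigenvalue_iff_isRoot_charpoly, Module.End.hasEigenvalue_iff_isRoot] at h1
  have h2 : minpoly (AlgebraicClosure K) F' ∣ (minpoly K F).map (algebraMap K (AlgebraicClosure K)) := by
    refine minpoly.dvd _ _ ?_
    have h3 : aeval F' (minpoly K F) =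
        Module.End.baseChangeHom K (AlgebraicClosure K) V (aeval F (minpoly K F)) := by
      rw [← Polynomial.aeval_algHom_apply]
      rfl
    rw [aeval_map_algebraMap, h3, minpoly.aeval, map_zero]
  have h4 := h1.dvd h2
  rw [IsRoot.def, eval_map_algebraMap] at h4
  exact h4

/-- a cyclic vector -/
theorem exists_cyclic (F : Module.End K V) (hsq : Squarefree F.charpoly) :
    ∃ v : V, ∀ x : V, ∃ f : K[X], x = aeval F f v := by
  classical
  set μ := minpoly K F with hμ
  have hμ0 : μ ≠ 0 := minpoly.ne_zero (Algebra.IsIntegral.isIntegral F)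
  have hdeg : μ.natDegree = finrank K V := by
    have h1 := Polynomial.natDegree_le_of_dvd (charpoly_dvd_minpoly F hsq) hμ0
    have h2 := Polynomial.natDegree_le_of_dvd (LinearMap.minpoly_dvd_charpoly F)
      F.charpoly_monic.ne_zero
    rw [LinearMap.charpoly_natDegree] at h1 h2
    rw [← hμ] at h1 h2
    omega
  -- outside the kernels
  have hv : ∃ v : V, ∀ p h : K[X], Irreducible p → μ = p * h → aeval F h v ≠ 0 := by
    set 𝓕 := (UniqueFactorizationMonoid.normalizedFactors μ).toFinset with h𝓕
    let W : 𝓕 → Submodule K V := fun p => LinearMap.ker (aeval F (μ / (p : K[X])))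
    have hW : ∀ p, W p ≠ ⊤ := by
      intro p hp
      have h1 : aeval F (μ / (p : K[X])) = 0 := LinearMap.ker_eq_top.1 hp
      have h2 := minpoly.dvd K F h1
      have hp1 : (p : K[X]) ∈ UniqueFactorizationMonoid.normalizedFactors μ :=
        Multiset.mem_toFinset.1 p.2
      have hirr := UniqueFactorizationMonoid.irreducible_of_normalized_factor _ hp1
      obtain ⟨h, hh⟩ := UniqueFactorizationMonoid.dvd_of_mem_normalizedFactors hp1
      have h3 : μ / (p : K[X]) = h := by
        rw [hh, mul_div_cancel_left₀ _ hirr.ne_zero]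
      rw [h3, ← hμ] at h2
      have hh0 : h ≠ 0 := by
        rintro rfl
        rw [mul_zero] at hh
        exact hμ0 hh
      have h4 := Polynomial.natDegree_le_of_dvd h2 hh0
      rw [hh, natDegree_mul hirr.ne_zero hh0] at h4
      have h5 := hirr.natDegree_pos
      omega
    have hcov : (⋃ p, (W p : Set V)) ≠ Set.univ := by
      intro h
      obtain ⟨p, hp⟩ := Subspace.exists_eq_top_of_iUnion_eq_univ h
      exact hW p hp
    obtain ⟨v, hv⟩ := (Set.ne_univ_iff_exists_notMem _).1 hcov
    rw [Set.mem_iUnion, not_exists] at hv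
    refine ⟨v, fun p h hp hph h0 => ?_⟩
    obtain ⟨p', hp', hass⟩ := UniqueFactorizationMonoid.exists_mem_normalizedFactors_of_dvd hμ0 hp
      ⟨h, hph⟩
    have hirr := UniqueFactorizationMonoid.irreducible_of_normalized_factor _ hp'
    refine hv ⟨p', by rw [h𝓕, Multiset.mem_toFinset]; exact hp'⟩ ?_
    show aeval F (μ / p') v = 0
    obtain ⟨u, hu⟩ := hass
    have h3 : μ / p' = (↑u⁻¹ : K[X]) * h := by
      rw [hph, show p * h = p' * ((↑u⁻¹ : K[X]) * h) by
        rw [← hu, mul_assoc, ← mul_assoc (u : K[X]), Units.mul_inv, one_mul],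
        mul_div_cancel_left₀ _ hirr.ne_zero]
    rw [h3, map_mul, Module.End.mul_apply, h0, map_zero]
  obtain ⟨v, hv⟩ := hv
  have hker : ∀ f : K[X], aeval F f v = 0 → μ ∣ f := by
    intro f hf
    set g := EuclideanDomain.gcd f μ with hg
    have hg0 : aeval F g v = 0 := by
      rw [hg, EuclideanDomain.gcd_eq_gcd_ab f μ, map_add, LinearMap.add_apply, mul_comm f, map_mul,
        map_mul, Module.End.mul_apply, hf, map_zero, zero_add, hμ, minpoly.aeval, zero_mul,
        LinearMap.zero_apply]
    obtain ⟨h, hh⟩ : g ∣ μ := EuclideanDomain.gcd_dvd_right f μ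
    by_cases hu : IsUnit h
    · obtain ⟨h', hh'⟩ := hu
      have h1 : μ ∣ g := ⟨(↑h'⁻¹ : K[X]), by rw [hh, ← hh', mul_assoc, Units.mul_inv, mul_one]⟩
      exact h1.trans (EuclideanDomain.gcd_dvd_left f μ)
    · exfalso
      have hh0 : h ≠ 0 := by
        rintro rfl
        rw [mul_zero] at hh
        exact hμ0 hh
      obtain ⟨p, hp, h', hph⟩ := WfDvdMonoid.exists_irreducible_factor hu hh0
      refine hv p (h' * g) hp (by rw [hh, hph]; ring) ?_
      rw [map_mul, Module.End.mul_apply, hg0, map_zero]
  refine ⟨v, ?_⟩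
  let Φ : degreeLT K (finrank K V) →ₗ[K] V :=
    (LinearMap.applyₗ v) ∘ₗ (aeval F : K[X] →ₐ[K] Module.End K V).toLinearMap ∘ₗ
      (degreeLT K (finrank K V)).subtype
  have hinj : Function.Injective Φ := by
    rw [← LinearMap.ker_eq_bot, LinearMap.ker_eq_bot']
    rintro ⟨f, hf⟩ h0
    rw [mem_degreeLT] at hf
    apply Subtype.ext
    show f = 0
    by_contra hne
    have h1 := Polynomial.natDegree_le_of_dvd (hker f h0) hne
    rw [Polynomial.degree_eq_natDegree hne] at hf
    have h2 : f.natDegree < finrank K V := by exact_mod_cast hf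
    omega
  have hsurj : Function.Surjective Φ := by
    have h1 : finrank K (degreeLT K (finrank K V)) = finrank K V := by
      rw [(degreeLTEquiv K (finrank K V)).finrank_eq, Module.finrank_fin_fun]
    have : FiniteDimensional K (degreeLT K (finrank K V)) :=
      FiniteDimensional.of_injective Φ hinj
    exact (LinearMap.injective_iff_surjective_of_finrank_eq_finrank h1).1 hinj
  intro x
  obtain ⟨f, hf⟩ := hsurj x
  exact ⟨f, hf.symm⟩

/-- **The commutant.** -/
theorem exists_poly_of_comm (F : Module.End K V) (hsq : Squarefree F.charpoly) (φ : Module.End K V)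
    (hφ : ∀ x, φ (F x) = F (φ x)) : ∃ f : K[X], ∀ x, φ x = aeval F f x := by
  obtain ⟨v, hv⟩ := exists_cyclic F hsq
  obtain ⟨f, hf⟩ := hv (φ v)
  have hcom : ∀ g : K[X], Commute φ (aeval F g) := by
    intro g
    have h1 : Commute φ F := LinearMap.ext fun x => hφ x
    have h2 : aeval F g ∈ Subalgebra.centralizer K {φ} := by
      have : Algebra.adjoin K {F} ≤ Subalgebra.centralizer K {φ} := by
        rw [Algebra.adjoin_le_iff]
        rintro _ rfl
        rw [SetLike.mem_coe, Subalgebra.mem_centralizer_iff]
        rintro _ rfl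
        exact h1
      exact this (aeval_mem_adjoin_singleton K F)
    rw [Subalgebra.mem_centralizer_iff] at h2
    exact h2 φ rfl
  refine ⟨f, fun x => ?_⟩
  obtain ⟨g, hg⟩ := hv x
  rw [hg]
  have h1 := congrArg (fun ψ : Module.End K V => ψ v) (hcom g).eq
  simp only [Module.End.mul_apply] at h1
  rw [h1, hf, ← Module.End.mul_apply, ← Module.End.mul_apply, ← map_mul, ← map_mul, mul_comm]

end Pool.Agent.Helper8K9.WR
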